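import Pool.Agent.Helper62.BM.Stm

/-!
# Package P7: the chart of the Lagrangian Grassmannian (`S_Chart`)
-/

set_option autoImplicit false

open MvPolynomial Matrix Finset

namespace Pool.Agent.Helper13.BM

open Pool.Agent.Helper62.BM

section taylor

variable {k L σ : Type} [Field k] [Field L] [Algebra k L] [Fintype σ]

/-- First order Taylor formula over the dual numbers. -/
theorem taylor (y e : σ → L) (G : MvPolynomial σ k) :
    aeval (fun s => (TrivSqZeroExt.inl (y s) + TrivSqZeroExt.inr (e s) : TrivSqZeroExt L L)) G =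
      TrivSqZeroExt.inl (aeval y G) +
        TrivSqZeroExt.inr (∑ s, e s * aeval y (pderiv s G)) := by
  classical
  induction G using MvPolynomial.induction_on with
  | C a =>
    simp only [aeval_C, pderiv_C, map_zero, mul_zero, Finset.sum_const_zero,
      TrivSqZeroExt.inr_zero, add_zero]
    rfl
  | add p q hp hq =>
    simp only [map_add, hp, hq, mul_add, Finset.sum_add_distrib, TrivSqZeroExt.inl_add,
      TrivSqZeroExt.inr_add]
    abel
  | mul_X p i hp =>
    simp only [map_mul, aeval_X, hp, pderiv_mul, map_add]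
    have h1 : ∑ s, e s * (aeval y (pderiv s p) * y i + aeval y p * aeval y (pderiv s (X i : MvPolynomial σ k))) =
        (∑ s, e s * aeval y (pderiv s p)) * y i + aeval y p * e i := by
      simp only [mul_add, Finset.sum_add_distrib, pderiv_X]
      congr 1
      · rw [Finset.sum_mul]
        exact Finset.sum_congr rfl fun s _ => by ring
      · rw [Finset.sum_eq_single i]
        · simp; ring
        · intro b _ hb
          simp [Ne.symm hb]
        · simp
    rw [h1]
    ext
    · simp
    · simp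
      ring

end taylor

section homog

variable {k : Type} [Field k] {σ R : Type} [Fintype σ] [CommRing R] [Algebra k R]

/-- The homogenised polynomial `D ^ e P(N / D)`. -/
noncomputable def hom (e : ℕ) (D : R) (N : σ → R) (P : MvPolynomial σ k) : R :=
  ∑ m ∈ P.support, algebraMap k R (P.coeff m) * D ^ (e - m.sum fun _ j => j) * ∏ s, N s ^ m s

theorem hom_eval {T : Type} [CommRing T] [Algebra k T] (Φ : R →ₐ[k] T) (e : ℕ) (D : R) (N : σ → R)
    (P : MvPolynomial σ k) (hP : P.totalDegree ≤ e) (t : σ → T) (ht : ∀ s, Φ (N s) = Φ D * t s) :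
    Φ (hom e D N P) = Φ D ^ e * aeval t P := by
  rw [aeval_def, eval₂_eq', hom, map_sum, Finset.mul_sum]
  refine Finset.sum_congr rfl fun m hm => ?_
  rw [map_mul, map_mul, map_pow, map_prod, AlgHom.commutes]
  have h1 : ∏ s, Φ (N s ^ m s) = Φ D ^ (m.sum fun _ j => j) * ∏ s, t s ^ m s := by
    have : ∀ s, Φ (N s ^ m s) = Φ D ^ m s * t s ^ m s := fun s => by
      rw [map_pow, ht, mul_pow]
    simp only [this, Finset.prod_mul_distrib]
    congr 1
    rw [Finset.prod_pow_eq_pow_sum]
    congr 1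
    rw [Finsupp.sum_fintype]
    intro i
    rfl
  have h2 : (m.sum fun _ j => j) ≤ e := (le_totalDegree hm).trans hP
  rw [h1]
  calc algebraMap k T (P.coeff m) * Φ D ^ (e - m.sum fun _ j => j) *
        (Φ D ^ (m.sum fun _ j => j) * ∏ s, t s ^ m s)
      = (Φ D ^ (e - m.sum fun _ j => j) * Φ D ^ (m.sum fun _ j => j)) *
        (algebraMap k T (P.coeff m) * ∏ s, t s ^ m s) := by ring
    _ = _ := by rw [← pow_add, Nat.sub_add_cancel h2]

end homog

section degree

variable {k σ : Type} [Field k]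

theorem totalDegree_pderiv_le (P : MvPolynomial σ k) (e : ℕ) (h : P.totalDegree ≤ e + 1) (s : σ) :
    (pderiv s P).totalDegree ≤ e := by
  classical
  refine Finset.sup_le fun m hm => ?_
  rw [mem_support_iff, coeff_pderiv] at hm
  have h1 : P.coeff (m + Finsupp.single s 1) ≠ 0 := left_ne_zero_of_mul hm
  have h2 := (le_totalDegree (mem_support_iff.2 h1)).trans h
  rw [Finsupp.sum_add_index' (fun _ => rfl) (fun _ _ _ => rfl), Finsupp.sum_single_index rfl] at h2
  omega

theorem eq_C_of_pderiv [CharZero k] (P : MvPolynomial σ k) (h : ∀ s, pderiv s P = 0) :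
    P = C (P.coeff 0) := by
  classical
  ext m
  rw [coeff_C]
  split_ifs with h0
  · rw [h0]
  · obtain ⟨s, hs⟩ : ∃ s, m s ≠ 0 := by
      by_contra hc
      push Not at hc
      exact h0 (Finsupp.ext fun s => (hc s).symm)
    have h1 : coeff (m - Finsupp.single s 1) (pderiv s P) = 0 := by rw [h s, coeff_zero]
    rw [coeff_pderiv] at h1
    have h2 : m - Finsupp.single s 1 + Finsupp.single s 1 = m := by
      refine tsub_add_cancel_of_le ?_
      rw [Finsupp.single_le_iff]
      omega
    rw [h2] at h1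
    rcases mul_eq_zero.1 h1 with h3 | h3
    · exact h3
    · exfalso
      have : ((((m - Finsupp.single s 1 : σ →₀ ℕ) s) + 1 : ℕ) : k) = 0 := by push_cast; exact h3
      exact Nat.succ_ne_zero _ (Nat.cast_eq_zero.1 this)

end degree

section chart

variable {k : Type} [Field k] {g : ℕ}

/-- The generic matrix. -/
noncomputable def Yg (k : Type) [Field k] (g : ℕ) :
    Matrix (Fin g) (Fin (2 * g)) (MvPolynomial (Fin g × Fin (2 * g)) k) :=
  Matrix.of fun i j => X (i, j)

/-- The common denominator. -/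
noncomputable def Dg (k : Type) [Field k] (g : ℕ) : MvPolynomial (Fin g × Fin (2 * g)) k :=
  ((Yg k g).submatrix id lo).det

/-- The numerators. -/
noncomputable def Ng (Q : Matrix (Fin (2 * g)) (Fin (2 * g)) k) :
    Matrix (Fin g) (Fin g) (MvPolynomial (Fin g × Fin (2 * g)) k) :=
  ((Yg k g).submatrix id lo).adjugate * ((Yg k g).submatrix id hi *
    ((Q.submatrix lo hi)ᵀ).map (algebraMap k (MvPolynomial (Fin g × Fin (2 * g)) k))) -
    Dg k g • ((2⁻¹ : k) • Q.submatrix lo lo).map
      (algebraMap k (MvPolynomial (Fin g × Fin (2 * g)) k))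

theorem eval_Ng {T : Type} [CommRing T] [Algebra k T] (Q : Matrix (Fin (2 * g)) (Fin (2 * g)) k)
    (Z : Matrix (Fin g) (Fin (2 * g)) T) (s : Matrix (Fin g) (Fin g) T)
    (hs : Z.submatrix id lo * (s + ((2⁻¹ : k) • Q.submatrix lo lo).map (algebraMap k T)) =
      Z.submatrix id hi * ((Q.submatrix lo hi)ᵀ).map (algebraMap k T)) :
    aeval (fun s : Fin g × Fin (2 * g) => Z s.1 s.2) (Dg k g) = (Z.submatrix id lo).det ∧
    ∀ i j, aeval (fun s : Fin g × Fin (2 * g) => Z s.1 s.2) (Ng Q i j) =
      (Z.submatrix id lo).det * s i j := by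
  set Φ : MvPolynomial (Fin g × Fin (2 * g)) k →ₐ[k] T :=
    aeval (fun s : Fin g × Fin (2 * g) => Z s.1 s.2) with hΦ
  have h1 : ((Yg k g).submatrix id lo).map Φ = Z.submatrix id lo := by
    ext i j
    simp [Yg, hΦ]
  have h2 : ((Yg k g).submatrix id hi).map Φ = Z.submatrix id hi := by
    ext i j
    simp [Yg, hΦ]
  have hD : Φ (Dg k g) = (Z.submatrix id lo).det := by
    rw [Dg, AlgHom.map_det, AlgHom.mapMatrix_apply, h1]
  have h3 : ∀ M : Matrix (Fin g) (Fin g) k, (M.map (algebraMap k
      (MvPolynomial (Fin g × Fin (2 * g)) k))).map Φ = M.map (algebraMap k T) := by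
    intro M
    ext i j
    simp only [Matrix.map_apply]
    exact Φ.commutes _
  have h4 : (((Yg k g).submatrix id lo).adjugate).map Φ = (Z.submatrix id lo).adjugate := by
    have := AlgHom.map_adjugate Φ ((Yg k g).submatrix id lo)
    rw [AlgHom.mapMatrix_apply, AlgHom.mapMatrix_apply, h1] at this
    exact this
  refine ⟨hD, fun i j => ?_⟩
  have h5 : (Ng Q).map Φ = (Z.submatrix id lo).adjugate * (Z.submatrix id hi *
      ((Q.submatrix lo hi)ᵀ).map (algebraMap k T)) - (Z.submatrix id lo).det •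
        ((2⁻¹ : k) • Q.submatrix lo lo).map (algebraMap k T) := by
    rw [Ng, ← h4, ← h2, ← h3, ← hD]
    ext a b
    simp only [Matrix.map_apply, Matrix.sub_apply, map_sub, Matrix.mul_apply, map_sum, map_mul,
      Matrix.smul_apply, smul_eq_mul]
    congr 2
    rw [Φ.commutes, Φ.commutes]
  have h6 : (Ng Q).map Φ = (Z.submatrix id lo).det • s := by
    rw [h5, ← hs, ← Matrix.mul_assoc, Matrix.adjugate_mul, Matrix.smul_mul, Matrix.one_mul,
      smul_add, add_sub_cancel_right]
  have h7 := congrFun (congrFun h6 i) j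
  simpa only [Matrix.map_apply, Matrix.smul_apply, smul_eq_mul] using h7

/-- The two halves of the indices. -/
def ee (g : ℕ) : Fin g ⊕ Fin g ≃ Fin (2 * g) :=
  finSumFinEquiv.trans (finCongr (two_mul g).symm)

theorem ee_inl (i : Fin g) : ee g (Sum.inl i) = lo i := by
  apply Fin.ext
  simp [ee, lo]

theorem ee_inr (i : Fin g) : ee g (Sum.inr i) = hi i := by
  apply Fin.ext
  simp [ee, hi, Nat.add_comm]

theorem ee_symm_lo (i : Fin g) : (ee g).symm (lo i) = Sum.inl i := by
  rw [← ee_inl, Equiv.symm_apply_apply]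

theorem ee_symm_hi (i : Fin g) : (ee g).symm (hi i) = Sum.inr i := by
  rw [← ee_inr, Equiv.symm_apply_apply]

theorem blocks {R : Type} (M : Matrix (Fin (2 * g)) (Fin (2 * g)) R) :
    M = (fromBlocks (M.submatrix lo lo) (M.submatrix lo hi) (M.submatrix hi lo)
      (M.submatrix hi hi)).submatrix (ee g).symm (ee g).symm := by
  ext i j
  obtain ⟨a, rfl⟩ := (ee g).surjective i
  obtain ⟨b, rfl⟩ := (ee g).surjective j
  rw [Matrix.submatrix_apply, Equiv.symm_apply_apply, Equiv.symm_apply_apply]
  rcases a with a | a <;> rcases b with b | b <;> simp [ee_inl, ee_inr]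

/-- The nilpotent matrix `(0, W; 0, 0)`. -/
def Am (W : Matrix (Fin g) (Fin g) k) : Matrix (Fin (2 * g)) (Fin (2 * g)) k :=
  (fromBlocks 0 W 0 0).submatrix (ee g).symm (ee g).symm

theorem Am_lo (W : Matrix (Fin g) (Fin g) k) (i : Fin (2 * g)) (j : Fin g) :
    Am W i (lo j) = 0 := by
  rw [Am, Matrix.submatrix_apply, ee_symm_lo]
  rcases (ee g).symm i with a | a <;> simp

theorem Am_lo_hi (W : Matrix (Fin g) (Fin g) k) (i j : Fin g) : Am W (lo i) (hi j) = W i j := by
  rw [Am, Matrix.submatrix_apply, ee_symm_lo, ee_symm_hi]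
  simp

theorem Am_hi_hi (W : Matrix (Fin g) (Fin g) k) (i j : Fin g) : Am W (hi i) (hi j) = 0 := by
  rw [Am, Matrix.submatrix_apply, ee_symm_hi, ee_symm_hi]
  simp

theorem sum_lohi {R : Type} [AddCommMonoid R] (f : Fin (2 * g) → R) :
    ∑ j, f j = ∑ j : Fin g, f (lo j) + ∑ j : Fin g, f (hi j) := by
  rw [← (ee g).sum_comp, Fintype.sum_sum_type]
  simp only [ee_inl, ee_inr]

theorem Am_mem (Q : Matrix (Fin (2 * g)) (Fin (2 * g)) k) (hQ : Qᵀ = -Q)
    (hhi : Q.submatrix hi hi = 0) (W : Matrix (Fin g) (Fin g) k)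
    (hW : (W * (Q.submatrix lo hi)ᵀ)ᵀ = W * (Q.submatrix lo hi)ᵀ) :
    Am W * Q + Q * (Am W)ᵀ = 0 := by
  have h21 : Q.submatrix hi lo = -(Q.submatrix lo hi)ᵀ := by
    ext i j
    have := congrFun (congrFun hQ (hi i)) (lo j)
    simp only [Matrix.transpose_apply, Matrix.neg_apply] at this
    simp only [Matrix.submatrix_apply, Matrix.neg_apply, Matrix.transpose_apply, this, neg_neg]
  have h1 : -(W * (Q.submatrix lo hi)ᵀ) + Q.submatrix lo hi * Wᵀ = 0 := by
    rw [Matrix.transpose_mul, Matrix.transpose_transpose] at hW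
    rw [← hW]
    simp
  rw [blocks Q, Am, h21, hhi]
  generalize Q.submatrix lo hi = Q12 at *
  generalize Q.submatrix lo lo = Q11 at *
  rw [Matrix.submatrix_mul_equiv, Matrix.transpose_submatrix, Matrix.submatrix_mul_equiv,
    Matrix.fromBlocks_transpose, Matrix.fromBlocks_multiply, Matrix.fromBlocks_multiply]
  simp only [Matrix.transpose_zero, Matrix.zero_mul, Matrix.mul_zero, add_zero, zero_add,
    Matrix.mul_neg]
  ext i j
  obtain ⟨a, rfl⟩ := (ee g).surjective i
  obtain ⟨b, rfl⟩ := (ee g).surjective j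
  have h2 := fun a b => congrFun (congrFun h1 a) b
  simp only [Matrix.add_apply, Matrix.submatrix_apply, Equiv.symm_apply_apply, Matrix.zero_apply]
  simp only [Matrix.add_apply, Matrix.zero_apply] at h2
  rcases a with a | a <;> rcases b with b | b
  · simpa using h2 a b
  all_goals simp

end chart

section main

variable {k L : Type} [Field k] [Field L] [Algebra k L] {g : ℕ}

/-- The derivations of the relations of `S`. -/
theorem key (Q : Matrix (Fin (2 * g)) (Fin (2 * g)) k) (Y : Matrix (Fin g) (Fin (2 * g)) L)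
    (hQ : Qᵀ = -Q) (hhi : Q.submatrix hi hi = 0) (hdet : (Q.submatrix lo hi).det ≠ 0)
    (hY : (Y.submatrix id lo).det ≠ 0)
    (hder : ∀ A : Matrix (Fin (2 * g)) (Fin (2 * g)) k, A * Q + Q * Aᵀ = 0 →
      ∀ G : MvPolynomial (Fin g × Fin (2 * g)) k,
        aeval (fun s : Fin g × Fin (2 * g) => Y s.1 s.2) G = 0 →
        ∑ s : Fin g × Fin (2 * g), (Y * A.map (algebraMap k L)) s.1 s.2 *
          aeval (fun s : Fin g × Fin (2 * g) => Y s.1 s.2) (pderiv s G) = 0)
    (S : Matrix (Fin g) (Fin g) L)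
    (hS : Y.submatrix id lo * (S + ((2⁻¹ : k) • Q.submatrix lo lo).map (algebraMap k L)) =
      Y.submatrix id hi * ((Q.submatrix lo hi)ᵀ).map (algebraMap k L))
    (E : Matrix (Fin g) (Fin g) k) (hE : Eᵀ = E) (P : MvPolynomial (Up g) k)
    (hP : aeval (fun s : Up g => S s.1.1 s.1.2) P = 0) :
    ∑ s : Up g, algebraMap k L (E s.1.1 s.1.2) *
      aeval (fun s : Up g => S s.1.1 s.1.2) (pderiv s P) = 0 := by
  classical
  obtain ⟨W, hW⟩ : ∃ W : Matrix (Fin g) (Fin g) k, W * (Q.submatrix lo hi)ᵀ = E := by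
    refine ⟨E * ((Q.submatrix lo hi)ᵀ)⁻¹, ?_⟩
    rw [Matrix.mul_assoc, Matrix.nonsing_inv_mul, Matrix.mul_one]
    rw [Matrix.det_transpose]
    exact hdet.isUnit
  have hA : Am W * Q + Q * (Am W)ᵀ = 0 := Am_mem Q hQ hhi W (by rw [hW, hE])
  set U : Matrix (Fin g) (Fin (2 * g)) L := Y * (Am W).map (algebraMap k L) with hU
  have hUlo : ∀ i j, U i (lo j) = 0 := by
    intro i j
    simp [hU, Matrix.mul_apply, Am_lo]
  have hUhi : ∀ i j, U i (hi j) = ∑ a, Y i (lo a) * algebraMap k L (W a j) := by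
    intro i j
    rw [hU, Matrix.mul_apply, sum_lohi]
    simp [Am_lo_hi, Am_hi_hi]
  set Z : Matrix (Fin g) (Fin (2 * g)) (TrivSqZeroExt L L) :=
    Matrix.of fun i j => TrivSqZeroExt.inl (Y i j) + TrivSqZeroExt.inr (U i j) with hZ
  set sA : Matrix (Fin g) (Fin g) (TrivSqZeroExt L L) :=
    Matrix.of fun i j => TrivSqZeroExt.inl (S i j) +
      TrivSqZeroExt.inr (algebraMap k L (E i j)) with hsA
  have hfstA : ∀ c : k, (algebraMap k (TrivSqZeroExt L L) c).fst = algebraMap k L c := fun c => rfl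
  have hsndA : ∀ c : k, (algebraMap k (TrivSqZeroExt L L) c).snd = 0 := fun c => rfl
  have hT : Z.submatrix id lo * (sA + ((2⁻¹ : k) • Q.submatrix lo lo).map
      (algebraMap k (TrivSqZeroExt L L))) =
      Z.submatrix id hi * ((Q.submatrix lo hi)ᵀ).map (algebraMap k (TrivSqZeroExt L L)) := by
    ext i j
    · have h := congrFun (congrFun hS i) j
      simp only [Matrix.mul_apply, Matrix.submatrix_apply, Matrix.add_apply, Matrix.map_apply,
        id] at h
      simp only [Matrix.mul_apply, Matrix.submatrix_apply, Matrix.add_apply, Matrix.map_apply,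
        id, TrivSqZeroExt.fst_sum, TrivSqZeroExt.fst_mul, TrivSqZeroExt.fst_add, hfstA, hZ, hsA,
        Matrix.of_apply, TrivSqZeroExt.fst_inl, TrivSqZeroExt.fst_inr, add_zero]
      exact h
    · simp only [Matrix.mul_apply, Matrix.submatrix_apply, Matrix.add_apply, Matrix.map_apply,
        id, TrivSqZeroExt.snd_sum, TrivSqZeroExt.snd_mul, TrivSqZeroExt.fst_add,
        TrivSqZeroExt.snd_add, hfstA, hsndA, hZ, hsA, Matrix.of_apply, TrivSqZeroExt.fst_inl,
        TrivSqZeroExt.fst_inr, TrivSqZeroExt.snd_inl, TrivSqZeroExt.snd_inr, add_zero, zero_add,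
        hUlo, hUhi, smul_zero, MulOpposite.smul_eq_mul_unop, MulOpposite.unop_op, smul_eq_mul,
        mul_zero, Matrix.transpose_apply]
      have h2 : ∀ a, algebraMap k L (E a j) = ∑ b, algebraMap k L (W a b) *
          algebraMap k L (Q.submatrix lo hi j b) := by
        intro a
        rw [← hW, Matrix.mul_apply, map_sum]
        exact Finset.sum_congr rfl fun b _ => by rw [map_mul]; rfl
      simp only [h2, Finset.mul_sum, Finset.sum_mul]
      rw [Finset.sum_comm]
      refine Finset.sum_congr rfl fun a _ => Finset.sum_congr rfl fun b _ => ?_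
      rw [mul_assoc]
      rfl
  obtain ⟨hL1, hL2⟩ := eval_Ng Q Y S hS
  obtain ⟨hT1, hT2⟩ := eval_Ng Q Z sA hT
  have hZ1 : (Z.submatrix id lo).det = TrivSqZeroExt.inl (Y.submatrix id lo).det := by
    have : Z.submatrix id lo = (TrivSqZeroExt.inlHom L L).mapMatrix (Y.submatrix id lo) := by
      ext i j <;> simp [hZ, hUlo]
    rw [this, ← RingHom.map_det]
    rfl
  set Pt := hom P.totalDegree (Dg k g) (fun s : Up g => Ng Q s.1.1 s.1.2) P with hPt
  have h1 : aeval (fun s : Fin g × Fin (2 * g) => Y s.1 s.2) Pt = 0 := by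
    rw [hPt, hom_eval _ _ _ _ _ le_rfl (fun s : Up g => S s.1.1 s.1.2)
      (fun s => by rw [hL2, hL1]), hP, mul_zero]
  have h2 := hder _ hA _ h1
  have h3 : aeval (fun s : Fin g × Fin (2 * g) => Z s.1 s.2) Pt = 0 := by
    have h := taylor (k := k) (fun s : Fin g × Fin (2 * g) => Y s.1 s.2)
      (fun s : Fin g × Fin (2 * g) => U s.1 s.2) Pt
    rw [h1, h2, TrivSqZeroExt.inl_zero, TrivSqZeroExt.inr_zero, add_zero] at h
    exact h
  rw [hPt, hom_eval _ _ _ _ _ le_rfl (fun s : Up g => sA s.1.1 s.1.2)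
      (fun s => by rw [hT2, hT1]), hT1, hZ1] at h3
  have h4 : aeval (fun s : Up g => sA s.1.1 s.1.2) P = 0 := by
    have hu : IsUnit ((TrivSqZeroExt.inl (Y.submatrix id lo).det : TrivSqZeroExt L L) ^
        P.totalDegree) := by
      refine IsUnit.pow _ ?_
      exact hY.isUnit.map (TrivSqZeroExt.inlHom L L)
    exact (hu.mul_right_eq_zero).1 h3
  have h5 := taylor (k := k) (fun s : Up g => S s.1.1 s.1.2)
    (fun s : Up g => algebraMap k L (E s.1.1 s.1.2)) P
  have h6 : aeval (fun s : Up g => (TrivSqZeroExt.inl (S s.1.1 s.1.2) +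
      TrivSqZeroExt.inr (algebraMap k L (E s.1.1 s.1.2)) : TrivSqZeroExt L L)) P = 0 := h4
  rw [h6, hP] at h5
  have h7 := congrArg TrivSqZeroExt.snd h5
  simpa using h7.symm

theorem chart : S_Chart := by
  intro k L _ _ _ _ g Q Y hQ hhi hdet hY hder
  classical
  set S := Sm (Q.map (algebraMap k L)) Y with hSdef
  have hS : Y.submatrix id lo * (S + ((2⁻¹ : k) • Q.submatrix lo lo).map (algebraMap k L)) =
      Y.submatrix id hi * ((Q.submatrix lo hi)ᵀ).map (algebraMap k L) := by
    have h1 : ((2⁻¹ : k) • Q.submatrix lo lo).map (algebraMap k L) =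
        (2⁻¹ : L) • (Q.map (algebraMap k L)).submatrix lo lo := by
      ext i j
      simp only [Matrix.map_apply, Matrix.smul_apply, smul_eq_mul, map_mul, map_inv₀, map_ofNat,
        Matrix.submatrix_apply]
    have h2 : ((Q.submatrix lo hi)ᵀ).map (algebraMap k L) =
        ((Q.map (algebraMap k L)).submatrix lo hi)ᵀ := by
      ext i j
      simp
    rw [hSdef, Sm, h1, h2, sub_add_cancel, Matrix.mul_assoc, ← Matrix.mul_assoc,
      Matrix.mul_nonsing_inv _ hY.isUnit, Matrix.one_mul]
  rw [algebraicIndependent_iff]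
  have main : ∀ (e : ℕ) (P : MvPolynomial (Up g) k), P.totalDegree ≤ e →
      aeval (fun s : Up g => S s.1.1 s.1.2) P = 0 → P = 0 := by
    intro e
    induction e with
    | zero =>
      intro P hP h0
      have hC := (totalDegree_eq_zero_iff_eq_C).1 (Nat.le_zero.1 hP)
      rw [hC, aeval_C] at h0
      rw [hC, (map_eq_zero _).1 h0, C_0]
    | succ e ih =>
      intro P hP h0
      have hd : ∀ s : Up g, pderiv s P = 0 := by
        intro s
        refine ih _ (totalDegree_pderiv_le P e hP s) ?_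
        have h := key Q Y hQ hhi hdet hY hder S hS
          (Matrix.of fun a b => if (a = s.1.1 ∧ b = s.1.2) ∨ (a = s.1.2 ∧ b = s.1.1) then 1 else 0)
          (by
            ext a b
            simp only [Matrix.transpose_apply, Matrix.of_apply]
            congr 1
            exact propext ⟨fun h => by tauto, fun h => by tauto⟩) P h0
        rw [Finset.sum_eq_single s] at h
        · simpa using h
        · intro t _ hts
          have : ¬ ((t.1.1 = s.1.1 ∧ t.1.2 = s.1.2) ∨ (t.1.1 = s.1.2 ∧ t.1.2 = s.1.1)) := by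
            rintro (⟨h1, h2⟩ | ⟨h1, h2⟩)
            · exact hts (Subtype.ext (Prod.ext h1 h2))
            · have h3 := t.2
              have h4 := s.2
              rw [h1, h2] at h3
              have h5 : s.1.1 = s.1.2 := le_antisymm h4 h3
              exact hts (Subtype.ext (Prod.ext (by rw [h1, h5]) (by rw [h2, h5])))
          simp [Matrix.of_apply, this]
        · simp
      have hC := eq_C_of_pderiv P hd
      rw [hC, aeval_C] at h0
      rw [hC, (map_eq_zero _).1 h0, C_0]
  exact fun P h => main _ P le_rfl h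

end main

end Pool.Agent.Helper13.BM
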