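import Pool.Agent.Helper62.BM.Stm3
import Pool.Agent.Helper13.BM.Chart

/-!
# The chart with all coordinates (`S_Chart2`)
-/

set_option autoImplicit false

open MvPolynomial Matrix Finset

namespace Pool.Agent.Helper13.BM

open Pool.Agent.Helper62.BM

section main2

variable {k L : Type} [Field k] [Field L] [Algebra k L] {g : ℕ}

theorem key2 (Q : Matrix (Fin (2 * g)) (Fin (2 * g)) k) (Y : Matrix (Fin g) (Fin (2 * g)) L)
    (hY : (Y.submatrix id lo).det ≠ 0)
    (S : Matrix (Fin g) (Fin g) L)
    (hS : Y.submatrix id lo * (S + ((2⁻¹ : k) • Q.submatrix lo lo).map (algebraMap k L)) =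
      Y.submatrix id hi * ((Q.submatrix lo hi)ᵀ).map (algebraMap k L))
    (U : Matrix (Fin g) (Fin (2 * g)) L)
    (hU : ∀ G : MvPolynomial (Fin g × Fin (2 * g)) k,
        aeval (fun s : Fin g × Fin (2 * g) => Y s.1 s.2) G = 0 →
        ∑ s : Fin g × Fin (2 * g), U s.1 s.2 *
          aeval (fun s : Fin g × Fin (2 * g) => Y s.1 s.2) (pderiv s G) = 0)
    (S' : Matrix (Fin g) (Fin g) L)
    (hS' : Y.submatrix id lo * S' + U.submatrix id lo *
      (S + ((2⁻¹ : k) • Q.submatrix lo lo).map (algebraMap k L)) =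
      U.submatrix id hi * ((Q.submatrix lo hi)ᵀ).map (algebraMap k L))
    (v : Vars g → L) (hv : v = Sum.elim (fun s => Y s.1 (lo s.2)) fun s => S s.1.1 s.1.2)
    (P : MvPolynomial (Vars g) k) (hP : aeval v P = 0) :
    ∑ s : Vars g, (Sum.elim (fun s : Fin g × Fin g => U s.1 (lo s.2))
      (fun s : Up g => S' s.1.1 s.1.2) s) * aeval v (pderiv s P) = 0 := by
  classical
  set Z : Matrix (Fin g) (Fin (2 * g)) (TrivSqZeroExt L L) :=
    Matrix.of fun i j => TrivSqZeroExt.inl (Y i j) + TrivSqZeroExt.inr (U i j) with hZ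
  set sA : Matrix (Fin g) (Fin g) (TrivSqZeroExt L L) :=
    Matrix.of fun i j => TrivSqZeroExt.inl (S i j) + TrivSqZeroExt.inr (S' i j) with hsA
  have hfstA : ∀ c : k, (algebraMap k (TrivSqZeroExt L L) c).fst = algebraMap k L c := fun c => rfl
  have hsndA : ∀ c : k, (algebraMap k (TrivSqZeroExt L L) c).snd = 0 := fun c => rfl
  have hT : Z.submatrix id lo * (sA + ((2⁻¹ : k) • Q.submatrix lo lo).map
      (algebraMap k (TrivSqZeroExt L L))) =
      Z.submatrix id hi * ((Q.submatrix lo hi)ᵀ).map (algebraMap k (TrivSqZeroExt L L)) := by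
    ext i j
    · have h := congrFun (congrFun hS i) j
      simp only [Matrix.mul_apply, Matrix.submatrix_apply, Matrix.add_apply, Matrix.map_apply,
        id] at h
      simp only [Matrix.mul_apply, Matrix.submatrix_apply, Matrix.add_apply, Matrix.map_apply,
        id, TrivSqZeroExt.fst_sum, TrivSqZeroExt.fst_mul, TrivSqZeroExt.fst_add, hfstA, hZ, hsA,
        Matrix.of_apply, TrivSqZeroExt.fst_inl, TrivSqZeroExt.fst_inr, add_zero]
      exact h
    · have h := congrFun (congrFun hS' i) j
      simp only [Matrix.mul_apply, Matrix.submatrix_apply, Matrix.add_apply, Matrix.map_apply,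
        id, ← Finset.sum_add_distrib] at h
      simp only [Matrix.mul_apply, Matrix.submatrix_apply, Matrix.add_apply, Matrix.map_apply,
        id, TrivSqZeroExt.snd_sum, TrivSqZeroExt.snd_mul, TrivSqZeroExt.fst_add,
        TrivSqZeroExt.snd_add, hfstA, hsndA, hZ, hsA, Matrix.of_apply, TrivSqZeroExt.fst_inl,
        TrivSqZeroExt.fst_inr, TrivSqZeroExt.snd_inl, TrivSqZeroExt.snd_inr, add_zero, zero_add,
        MulOpposite.smul_eq_mul_unop, MulOpposite.unop_op, smul_eq_mul,
        mul_zero]
      exact h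
  obtain ⟨hL1, hL2⟩ := eval_Ng Q Y S hS
  obtain ⟨hT1, hT2⟩ := eval_Ng Q Z sA hT
  have hZ1 : IsUnit (Z.submatrix id lo).det := by
    rw [TrivSqZeroExt.isUnit_iff_isUnit_fst]
    have h1 : (Z.submatrix id lo).det.fst = (Y.submatrix id lo).det := by
      have h2 := RingHom.map_det (TrivSqZeroExt.fstHom L L L).toRingHom (Z.submatrix id lo)
      have h3 : (TrivSqZeroExt.fstHom L L L).toRingHom.mapMatrix (Z.submatrix id lo) =
          Y.submatrix id lo := by
        ext i j
        simp [hZ]
      rw [h3] at h2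
      exact h2
    rw [h1]
    exact hY.isUnit
  set N : Vars g → MvPolynomial (Fin g × Fin (2 * g)) k :=
    Sum.elim (fun s => Dg k g * X (s.1, lo s.2)) (fun s => Ng Q s.1.1 s.1.2) with hN
  set Pt := hom P.totalDegree (Dg k g) N P with hPt
  have h1 : aeval (fun s : Fin g × Fin (2 * g) => Y s.1 s.2) Pt = 0 := by
    rw [hPt, hom_eval _ _ _ _ _ le_rfl v (fun s => ?_), hP, mul_zero]
    rcases s with s | s
    · simp [hN, hv]
    · simp [hN, hv, hL1, hL2]
  have h2 := hU _ h1
  have h3 : aeval (fun s : Fin g × Fin (2 * g) => Z s.1 s.2) Pt = 0 := by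
    have h := taylor (k := k) (fun s : Fin g × Fin (2 * g) => Y s.1 s.2)
      (fun s : Fin g × Fin (2 * g) => U s.1 s.2) Pt
    rw [h1, h2, TrivSqZeroExt.inl_zero, TrivSqZeroExt.inr_zero, add_zero] at h
    exact h
  rw [hPt, hom_eval _ _ _ _ _ le_rfl
    (Sum.elim (fun s => Z s.1 (lo s.2)) fun s : Up g => sA s.1.1 s.1.2)
      (fun s => by
        rcases s with s | s
        · simp [hN]
        · simp [hN, hT1, hT2]), hT1] at h3
  have h4 : aeval (Sum.elim (fun s => Z s.1 (lo s.2)) fun s : Up g => sA s.1.1 s.1.2) P = 0 :=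
    ((hZ1.pow _).mul_right_eq_zero).1 h3
  have h5 := taylor (k := k) v (Sum.elim (fun s : Fin g × Fin g => U s.1 (lo s.2))
      (fun s : Up g => S' s.1.1 s.1.2)) P
  have h6 : (fun s => (TrivSqZeroExt.inl (v s) + TrivSqZeroExt.inr
      (Sum.elim (fun s : Fin g × Fin g => U s.1 (lo s.2)) (fun s : Up g => S' s.1.1 s.1.2) s) :
        TrivSqZeroExt L L)) =
      Sum.elim (fun s => Z s.1 (lo s.2)) fun s : Up g => sA s.1.1 s.1.2 := by
    funext s
    rcases s with s | s <;> simp [hv, hZ, hsA]
  rw [h6, h4, hP] at h5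
  have h7 := congrArg TrivSqZeroExt.snd h5
  simpa using h7.symm

/-- The matrix `(B, C; 0, E)`. -/
def Am2 (B C E : Matrix (Fin g) (Fin g) k) : Matrix (Fin (2 * g)) (Fin (2 * g)) k :=
  (fromBlocks B C 0 E).submatrix (ee g).symm (ee g).symm

theorem Am2_lo_lo (B C E : Matrix (Fin g) (Fin g) k) (i j : Fin g) :
    Am2 B C E (lo i) (lo j) = B i j := by
  rw [Am2, Matrix.submatrix_apply, ee_symm_lo, ee_symm_lo]
  simp

theorem Am2_hi_lo (B C E : Matrix (Fin g) (Fin g) k) (i j : Fin g) :
    Am2 B C E (hi i) (lo j) = 0 := by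
  rw [Am2, Matrix.submatrix_apply, ee_symm_lo, ee_symm_hi]
  simp

theorem Am2_mem (Q : Matrix (Fin (2 * g)) (Fin (2 * g)) k) (hQ : Qᵀ = -Q)
    (hhi : Q.submatrix hi hi = 0) (hdet : (Q.submatrix lo hi).det ≠ 0)
    (B : Matrix (Fin g) (Fin g) k) : ∃ C E : Matrix (Fin g) (Fin g) k,
      Am2 B C E * Q + Q * (Am2 B C E)ᵀ = 0 := by
  have h21 : Q.submatrix hi lo = -(Q.submatrix lo hi)ᵀ := by
    ext i j
    have := congrFun (congrFun hQ (hi i)) (lo j)
    simp only [Matrix.transpose_apply, Matrix.neg_apply] at this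
    simp only [Matrix.submatrix_apply, Matrix.neg_apply, Matrix.transpose_apply, this, neg_neg]
  have h11 : (Q.submatrix lo lo)ᵀ = -Q.submatrix lo lo := by
    ext i j
    exact congrFun (congrFun hQ (lo i)) (lo j)
  obtain ⟨C, hC⟩ : ∃ C : Matrix (Fin g) (Fin g) k,
      C * (Q.submatrix lo hi)ᵀ = B * Q.submatrix lo lo := by
    refine ⟨B * Q.submatrix lo lo * ((Q.submatrix lo hi)ᵀ)⁻¹, ?_⟩
    rw [Matrix.mul_assoc, Matrix.nonsing_inv_mul, Matrix.mul_one]
    rw [Matrix.det_transpose]
    exact hdet.isUnit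
  obtain ⟨E, hE⟩ : ∃ E : Matrix (Fin g) (Fin g) k,
      Q.submatrix lo hi * Eᵀ = -(B * Q.submatrix lo hi) := by
    refine ⟨(-((Q.submatrix lo hi)⁻¹ * (B * Q.submatrix lo hi)))ᵀ, ?_⟩
    rw [Matrix.transpose_transpose, Matrix.mul_neg, ← Matrix.mul_assoc,
      Matrix.mul_nonsing_inv _ hdet.isUnit, Matrix.one_mul]
  refine ⟨C, E, ?_⟩
  have e11 : B * Q.submatrix lo lo + C * -(Q.submatrix lo hi)ᵀ +
      (Q.submatrix lo lo * Bᵀ + Q.submatrix lo hi * Cᵀ) = 0 := by
    have h1 : Q.submatrix lo hi * Cᵀ = -(Q.submatrix lo lo * Bᵀ) := by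
      have h2 := congrArg Matrix.transpose hC
      rw [Matrix.transpose_mul, Matrix.transpose_transpose, Matrix.transpose_mul, h11,
        Matrix.neg_mul] at h2
      exact h2
    rw [Matrix.mul_neg, hC, h1]
    abel
  have e12 : B * Q.submatrix lo hi + Q.submatrix lo hi * Eᵀ = 0 := by
    rw [hE]
    abel
  have e21 : E * -(Q.submatrix lo hi)ᵀ + -(Q.submatrix lo hi)ᵀ * Bᵀ = 0 := by
    have h2 := congrArg Matrix.transpose e12
    rw [Matrix.transpose_add, Matrix.transpose_mul, Matrix.transpose_mul,
      Matrix.transpose_transpose, Matrix.transpose_zero] at h2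
    rw [Matrix.mul_neg, Matrix.neg_mul, ← neg_add, add_comm (E * _), h2, neg_zero]
  rw [blocks Q, Am2, h21, hhi]
  generalize Q.submatrix lo hi = Q12 at *
  generalize Q.submatrix lo lo = Q11 at *
  rw [Matrix.submatrix_mul_equiv, Matrix.transpose_submatrix, Matrix.submatrix_mul_equiv,
    Matrix.fromBlocks_transpose, Matrix.fromBlocks_multiply, Matrix.fromBlocks_multiply]
  ext i j
  obtain ⟨a, rfl⟩ := (ee g).surjective i
  obtain ⟨b, rfl⟩ := (ee g).surjective j
  have f11 := congrFun (congrFun e11 (a.elim id id)) (b.elim id id)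
  have f12 := congrFun (congrFun e12 (a.elim id id)) (b.elim id id)
  have f21 := congrFun (congrFun e21 (a.elim id id)) (b.elim id id)
  simp only [Matrix.add_apply, Matrix.submatrix_apply, Equiv.symm_apply_apply, Matrix.zero_apply]
  simp only [Matrix.add_apply, Matrix.zero_apply] at f11 f12 f21
  rcases a with a | a <;> rcases b with b | b
  · simpa using f11
  · simpa using f12
  · simpa using f21
  · simp

theorem chart2 : S_Chart2 := by
  intro k L _ _ _ _ g Q Y hQ hhi hdet hY hder
  classical
  set S := Sm (Q.map (algebraMap k L)) Y with hSdef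
  have hS : Y.submatrix id lo * (S + ((2⁻¹ : k) • Q.submatrix lo lo).map (algebraMap k L)) =
      Y.submatrix id hi * ((Q.submatrix lo hi)ᵀ).map (algebraMap k L) := by
    have h1 : ((2⁻¹ : k) • Q.submatrix lo lo).map (algebraMap k L) =
        (2⁻¹ : L) • (Q.map (algebraMap k L)).submatrix lo lo := by
      ext i j
      simp only [Matrix.map_apply, Matrix.smul_apply, smul_eq_mul, map_mul, map_inv₀, map_ofNat,
        Matrix.submatrix_apply]
    have h2 : ((Q.submatrix lo hi)ᵀ).map (algebraMap k L) =
        ((Q.map (algebraMap k L)).submatrix lo hi)ᵀ := by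
      ext i j
      simp
    rw [hSdef, Sm, h1, h2, sub_add_cancel, Matrix.mul_assoc, ← Matrix.mul_assoc,
      Matrix.mul_nonsing_inv _ hY.isUnit, Matrix.one_mul]
  set v : Vars g → L := frv (Q.map (algebraMap k L)) Y with hv
  have hv' : v = Sum.elim (fun s => Y s.1 (lo s.2)) fun s => S s.1.1 s.1.2 := rfl
  rw [algebraicIndependent_iff]
  have main : ∀ (e : ℕ) (P : MvPolynomial (Vars g) k), P.totalDegree ≤ e →
      aeval v P = 0 → P = 0 := by
    intro e
    induction e with
    | zero =>
      intro P hP h0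
      have hC := (totalDegree_eq_zero_iff_eq_C).1 (Nat.le_zero.1 hP)
      rw [hC, aeval_C] at h0
      rw [hC, (map_eq_zero _).1 h0, C_0]
    | succ e ih =>
      intro P hP h0
      -- the derivatives with respect to `S`
      have hd : ∀ s : Up g, pderiv (Sum.inr s) P = 0 := by
        intro s
        refine ih _ (totalDegree_pderiv_le P e hP _) ?_
        set E : Matrix (Fin g) (Fin g) k := Matrix.of fun a b =>
          if (a = s.1.1 ∧ b = s.1.2) ∨ (a = s.1.2 ∧ b = s.1.1) then 1 else 0 with hEdef
        have hE : Eᵀ = E := by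
          ext a b
          simp only [hEdef, Matrix.transpose_apply, Matrix.of_apply]
          congr 1
          exact propext ⟨fun h => by tauto, fun h => by tauto⟩
        obtain ⟨W, hW⟩ : ∃ W : Matrix (Fin g) (Fin g) k, W * (Q.submatrix lo hi)ᵀ = E := by
          refine ⟨E * ((Q.submatrix lo hi)ᵀ)⁻¹, ?_⟩
          rw [Matrix.mul_assoc, Matrix.nonsing_inv_mul, Matrix.mul_one]
          rw [Matrix.det_transpose]
          exact hdet.isUnit
        have hA : Am W * Q + Q * (Am W)ᵀ = 0 := Am_mem Q hQ hhi W (by rw [hW, hE])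
        set U : Matrix (Fin g) (Fin (2 * g)) L := Y * (Am W).map (algebraMap k L) with hU
        have hUlo : U.submatrix id lo = 0 := by
          ext i j
          simp [hU, Matrix.mul_apply, Am_lo]
        have hUhi : U.submatrix id hi = Y.submatrix id lo * W.map (algebraMap k L) := by
          ext i j
          rw [hU, Matrix.submatrix_apply, Matrix.mul_apply, sum_lohi]
          simp [Am_lo_hi, Am_hi_hi, Matrix.mul_apply]
        have hS' : Y.submatrix id lo * E.map (algebraMap k L) + U.submatrix id lo *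
            (S + ((2⁻¹ : k) • Q.submatrix lo lo).map (algebraMap k L)) =
            U.submatrix id hi * ((Q.submatrix lo hi)ᵀ).map (algebraMap k L) := by
          rw [hUlo, hUhi, Matrix.zero_mul, add_zero, Matrix.mul_assoc, ← Matrix.map_mul, hW]
        have h := key2 Q Y hY S hS U (hder _ hA) _ hS' v hv' P h0
        rw [Fintype.sum_sum_type] at h
        have h1 : ∀ s : Fin g × Fin g, U s.1 (lo s.2) = 0 := fun s =>
          congrFun (congrFun hUlo s.1) s.2
        simp only [Sum.elim_inl, Sum.elim_inr, h1, zero_mul, Finset.sum_const_zero,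
          zero_add] at h
        rw [Finset.sum_eq_single s] at h
        · simpa [hEdef] using h
        · intro t _ hts
          have : ¬ ((t.1.1 = s.1.1 ∧ t.1.2 = s.1.2) ∨ (t.1.1 = s.1.2 ∧ t.1.2 = s.1.1)) := by
            rintro (⟨h1, h2⟩ | ⟨h1, h2⟩)
            · exact hts (Subtype.ext (Prod.ext h1 h2))
            · have h3 := t.2
              have h4 := s.2
              rw [h1, h2] at h3
              have h5 : s.1.1 = s.1.2 := le_antisymm h4 h3
              exact hts (Subtype.ext (Prod.ext (by rw [h1, h5]) (by rw [h2, h5])))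
          simp [hEdef, this]
        · simp
      -- the derivatives with respect to `Y₁`
      have hd2 : ∀ m : Fin g, ∀ i : Fin g, aeval v (pderiv (Sum.inl (i, m)) P) = 0 := by
        intro m
        have hl : ∀ l : Fin g, ∑ i, Y i (lo l) * aeval v (pderiv (Sum.inl (i, m)) P) = 0 := by
          intro l
          obtain ⟨C, E, hA⟩ := Am2_mem Q hQ hhi hdet (Matrix.single l m (1 : k))
          set U : Matrix (Fin g) (Fin (2 * g)) L :=
            Y * (Am2 (Matrix.single l m (1 : k)) C E).map (algebraMap k L) with hU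
          have hUlo : ∀ i j, U i (lo j) = if j = m then Y i (lo l) else 0 := by
            intro i j
            rw [hU, Matrix.mul_apply, sum_lohi]
            simp only [Matrix.map_apply, Am2_lo_lo, Am2_hi_lo, map_zero, mul_zero,
              Finset.sum_const_zero, add_zero]
            rw [Finset.sum_eq_single l]
            · by_cases hj : j = m
              · simp [hj]
              · simp [hj, Ne.symm hj]
            · intro b _ hb
              simp [Ne.symm hb]
            · simp
          have h := key2 Q Y hY S hS U (hder _ hA)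
            ((Y.submatrix id lo)⁻¹ * (U.submatrix id hi *
              ((Q.submatrix lo hi)ᵀ).map (algebraMap k L) - U.submatrix id lo *
              (S + ((2⁻¹ : k) • Q.submatrix lo lo).map (algebraMap k L))))
            (by rw [← Matrix.mul_assoc, Matrix.mul_nonsing_inv _ hY.isUnit, Matrix.one_mul,
              sub_add_cancel]) v hv' P h0
          rw [Fintype.sum_sum_type] at h
          simp only [Sum.elim_inl, Sum.elim_inr, hd, map_zero, mul_zero, Finset.sum_const_zero,
            add_zero, hUlo, Fintype.sum_prod_type, ite_mul, zero_mul, Finset.sum_ite_eq',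
            Finset.mem_univ, if_true] at h
          exact h
        have h2 : (Y.submatrix id lo)ᵀ *ᵥ (fun i => aeval v (pderiv (Sum.inl (i, m)) P)) = 0 := by
          funext l
          simpa [Matrix.mulVec, dotProduct] using hl l
        have h3 := Matrix.eq_zero_of_mulVec_eq_zero (by rwa [Matrix.det_transpose]) h2
        exact fun i => congrFun h3 i
      have hall : ∀ s : Vars g, pderiv s P = 0 := by
        intro s
        rcases s with ⟨i, m⟩ | s
        · exact ih _ (totalDegree_pderiv_le P e hP _) (hd2 m i)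
        · exact hd s
      have hC := eq_C_of_pderiv P hall
      rw [hC, aeval_C] at h0
      rw [hC, (map_eq_zero _).1 h0, C_0]
  exact fun P h => main _ P le_rfl h

end main2

end Pool.Agent.Helper13.BM
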