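import Pool.Agent.Helper13.BM.LemA
import Pool.Agent.Helper61.BM.ConB
import Pool.Agent.Helper90.BM.DPP
import Pool.Agent.Helper72.BM.Emb

/-!
# `S_Ind2` from the other statements
-/

set_option autoImplicit false

open Polynomial Matrix Finset Filter

namespace Pool.Agent.Helper13.BM

open Pool.Agent.Helper62.BM Pool.Agent.Helper90.BM Pool.Agent.Helper61.BM

section aux

variable (U : Ultrafilter ℕ) {F : ℕ → Type} [∀ i, Field (F i)]

theorem mkM_det {n : ℕ} (M : ∀ i, Matrix (Fin n) (Fin n) (F i)) :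
    (mkM U M).det = Helper62.BM.mk U fun i => (M i).det := by
  have h1 : mkM U M = (Helper62.BM.mk U (F := F)).mapMatrix
    (Matrix.of fun j l => fun i => M i j l) := rfl
  rw [h1, ← RingHom.map_det]
  congr 1
  funext i
  have h2 := RingHom.map_det (Pi.evalRingHom F i)
    (Matrix.of fun j l => fun i => M i j l : Matrix (Fin n) (Fin n) (∀ i, F i))
  exact h2

theorem mkM_det_ne {n : ℕ} (M : ∀ i, Matrix (Fin n) (Fin n) (F i)) (h : ∀ i, (M i).det ≠ 0) :
    (mkM U M).det ≠ 0 := by
  rw [mkM_det, Ne, mk_eq_zero]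
  intro h'
  obtain ⟨i, hi⟩ := h'.exists
  exact h i hi

theorem mk_Sm {g : ℕ} (Q : ∀ i, Matrix (Fin (2 * g)) (Fin (2 * g)) (F i))
    (Y : ∀ i, Matrix (Fin g) (Fin (2 * g)) (F i)) (hY : ∀ i, ((Y i).submatrix id lo).det ≠ 0) :
    Sm (mkM U Q) (mkM U Y) = mkM U fun i => Sm (Q i) (Y i) := by
  unfold Sm
  rw [mkM_sub, mkM_mul, mkM_mul, mkM_inv U _ hY, mkM_smul]
  have h2 : Helper62.BM.mk U (fun i => (2⁻¹ : F i)) = (2 : UP U F)⁻¹ := by
    have : (fun i => (2⁻¹ : F i)) = fun i => ((2 : ∀ i, F i) i)⁻¹ := rfl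
    rw [this, mk_inv, map_ofNat]
  rw [h2]
  rfl

theorem mk_frv {g : ℕ} (Q : ∀ i, Matrix (Fin (2 * g)) (Fin (2 * g)) (F i))
    (Y : ∀ i, Matrix (Fin g) (Fin (2 * g)) (F i)) (hY : ∀ i, ((Y i).submatrix id lo).det ≠ 0)
    (s : Vars g) :
    frv (mkM U Q) (mkM U Y) s = Helper62.BM.mk U fun i => frv (Q i) (Y i) s := by
  rcases s with s | s
  · rfl
  · show Sm (mkM U Q) (mkM U Y) s.1.1 s.1.2 = _
    rw [mk_Sm U Q Y hY]
    rfl

end aux

section hor

variable {F : Type} [Field F] {m n : ℕ}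

theorem hor_Bx (D : Der F) (E B : Matrix (Fin n) (Fin n) F) (hE : E.det ≠ 0)
    (hDE : ∀ i j, D (E i j) = 0) (Y : Matrix (Fin m) (Fin n) F)
    (hY : ∀ i j, D ((Y * E) i j) = ((Y * E) * B) i j) (i : Fin m) (j : Fin n) :
    D (Y i j) = (Y * (E * B * E⁻¹)) i j := by
  have hu := isUnit_iff_ne_zero.2 hE
  have h1 : (Y * E).map D = Y.map D * E := by
    ext i j
    rw [Matrix.map_apply, Matrix.mul_apply, Matrix.mul_apply, map_sum]
    refine Finset.sum_congr rfl fun l _ => ?_
    rw [Derivation.leibniz, hDE, smul_zero, zero_add, smul_eq_mul, Matrix.map_apply, mul_comm]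
  have h2 : Y.map D * E = Y * E * B := by
    rw [← h1]
    ext i j
    exact hY i j
  have h3 : Y.map D = Y * (E * B * E⁻¹) := by
    calc Y.map D = Y.map D * (E * E⁻¹) := by rw [Matrix.mul_nonsing_inv _ hu, Matrix.mul_one]
      _ = Y.map D * E * E⁻¹ := by rw [Matrix.mul_assoc]
      _ = _ := by rw [h2]; simp only [Matrix.mul_assoc]
  rw [← h3]
  rfl

end hor

/-- Package N6'. -/
theorem ind2 (hCon : S_Con) (hEDet : S_EDet) (hQxDet : S_QxDet) : S_Ind2 := by
  intro g hg U C _ p _ _ hp a ha D hD τ hτ f' hf' hf'D Y hY hYd G hG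
  classical
  -- the fields
  have hcast : ∀ (i : ℕ) (m : ℕ), 1 ≤ m → m < p i → ((m : ℕ) : KX (C i)) ≠ 0 := by
    intro i m h1 h2 h3
    rw [CharP.cast_eq_zero_iff (KX (C i)) (p i)] at h3
    exact absurd (Nat.le_of_dvd h1 h3) (not_le.2 h2)
  have hC0 : CharZero (UP U fun i => KX (C i)) := Helper62.BM.charZero U fun m hm => by
    filter_upwards [hp m] with i hi
    exact hcast i m hm hi
  choose Df hDf _ using fun i => Pool.Agent.Helper12.BM.frac (KX (C i))
  have hev : ∀ i (q : (KX (C i))[X]), q.eval₂ (κ (KX (C i))) (tX (KX (C i))) = ι (KX (C i)) q := by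
    intro i q
    have h1 : q.eval₂ (κ (KX (C i))) (tX (KX (C i))) =
        ι (KX (C i)) (q.eval₂ (Polynomial.C : KX (C i) →+* (KX (C i))[X]) X) := by
      rw [Polynomial.hom_eval₂]
      rfl
    rw [h1, Polynomial.eval₂_C_X]
  obtain ⟨f, hf, hfD⟩ := Pool.Agent.Helper72.BM.emb U (fun i => KX (C i))
    (fun i => KX (KX (C i))) (fun i => κ (KX (C i))) (fun i => tX (KX (C i))) (by
      intro d
      refine Filter.Eventually.of_forall fun i q _ h => ?_
      rw [hev] at h
      exact (map_eq_zero_iff _ (IsFractionRing.injective (KX (C i))[X] (KX (KX (C i))))).1 h)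
  have hf2 : ∀ q : Polynomial (∀ i, KX (C i)), f (ι _ (q.map (Helper62.BM.mk U))) =
      Helper62.BM.mk U fun i => ι (KX (C i)) (q.map (Pi.evalRingHom (fun i => KX (C i)) i)) := by
    intro q
    rw [hf]
    congr 1
    funext i
    exact hev i _
  have hfD2 : ∀ (Dk : Der (KX (UP U fun i => KX (C i)))), IsDer Dk →
      ∀ z, f (Dk z) = der U Df (f z) := fun Dk hDk =>
    hfD Dk Df hDk (fun i y => D_κ (hDf i) y) (fun i => D_tX (hDf i))
  have hC := hCon g hg U (fun i => KX (C i)) p hp (fun i => aX (a i)) (fun i => inj_aX (ha i))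
    Df hDf f hf2 hfD2
  set ah : Fin (2 * g) → UP U fun i => KX (C i) := fun j => Helper62.BM.mk U fun i => aX (a i) j
    with hah
  have hah_inj : Function.Injective ah := by
    intro j l h
    rw [hah] at h
    simp only at h
    rw [mk_eq] at h
    obtain ⟨i, hi⟩ := h.exists
    exact inj_aX (ha i) hi
  have hEk : (Em (aX ah)).det ≠ 0 := hEDet _ _ _ (inj_aX hah_inj)
  have hE : ∀ i, (Em (aX (a i))).det ≠ 0 := fun i => hEDet _ _ _ (inj_aX (ha i))
  have hE2 : ∀ i, (Em (aX (aX (a i)))).det ≠ 0 := fun i => hEDet _ _ _ (inj_aX (inj_aX (ha i)))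
  -- the values of `f`
  have hft : f (tX (UP U fun i => KX (C i))) = Helper62.BM.mk U fun i => tX (KX (C i)) := by
    have := hf2 X
    rw [Polynomial.map_X] at this
    rw [this]
    congr 1
    funext i
    rw [Polynomial.map_X]
  have hfa : ∀ j, f (aX ah j) = Helper62.BM.mk U fun i => aX (aX (a i)) j := by
    intro j
    have := hf2 (Polynomial.C fun i => aX (a i) j)
    rw [Polynomial.map_C] at this
    rw [this]
    congr 1
    funext i
    rw [Polynomial.map_C]
    rfl
  have hfB : (Bx (tX (UP U fun i => KX (C i))) (aX ah)).map f =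
      mkM U fun i => Bx (tX (KX (C i))) (aX (aX (a i))) := by
    rw [Bx_map f _ _ hEk, mk_Bx U _ _ hE2, hft]
    congr 1
    funext j
    exact hfa j
  -- the values of `f'`
  have hft' : f' (tX (UP U fun i => KX (C i))) = Helper62.BM.mk U fun i => tX (C i) := by
    have := hf' X
    rw [Polynomial.map_X] at this
    rw [this]
    congr 1
    funext i
    rw [Polynomial.map_X, Polynomial.eval₂_X]
  have hfa' : ∀ j, f' (aX ah j) = Helper62.BM.mk U fun i => aX (a i) j := by
    intro j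
    have := hf' (Polynomial.C fun i => aX (a i) j)
    rw [Polynomial.map_C] at this
    rw [this]
    congr 1
    funext i
    rw [Polynomial.map_C, Polynomial.eval₂_C]
    show τ i (ι (C i) (Polynomial.C (a i j))) = ι (C i) (Polynomial.C (a i j))
    rw [hτ, Polynomial.expand_C]
  have hfB' : (Bx (tX (UP U fun i => KX (C i))) (aX ah)).map f' =
      mkM U fun i => Bx (tX (C i)) (aX (a i)) := by
    rw [Bx_map f' _ _ hEk, mk_Bx U _ _ hE, hft']
    congr 1
    funext j
    exact hfa' j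
  have hfQ' : (Qx (tX (UP U fun i => KX (C i))) (aX ah)).map f' =
      mkM U fun i => Qx (tX (C i)) (aX (a i)) := by
    rw [Qx_map, mk_Qx, hft']
    congr 1
    funext j
    exact hfa' j
  obtain ⟨Dk, hDk, -⟩ := Pool.Agent.Helper12.BM.frac (UP U fun i => KX (C i))
  -- the frame
  have hY2 : ∀ j l, der U D (mkM U Y j l) =
      (mkM U Y * (Bx (tX (UP U fun i => KX (C i))) (aX ah)).map f') j l := by
    intro j l
    rw [hfB', ← mkM_mul, mkM_apply, mkM_apply, der_mk]
    congr 1
    funext i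
    refine hor_Bx (D i) (Em (aX (a i))) (Bm (tX (C i)) (aX (a i))) (hE i) (fun r s => ?_) (Y i)
      (hY i) j l
    rw [Em_aX, Matrix.map_apply, D_κ (hD i)]
  letI : Algebra (KX (UP U fun i => KX (C i))) (UP U fun i => KX (C i)) := f'.toAlgebra
  obtain ⟨hQ1, hQ2, hQ3, hQ4⟩ := hQxDet (KX (UP U fun i => KX (C i))) g (fun m hm _ => by
    have : m ≠ 0 := by omega
    exact_mod_cast this) (tX (UP U fun i => KX (C i))) (aX ah) hg
  have hch := chart2 (KX (UP U fun i => KX (C i))) (UP U fun i => KX (C i)) g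
    (Qx (tX (UP U fun i => KX (C i))) (aX ah)) (mkM U Y) hQ4 hQ3 hQ2 (mkM_det_ne U _ hYd) (by
      intro A hA G' hG'
      exact lemA f' f Dk (der U D) (der U Df) (hf'D Dk hDk) (hfD2 Dk hDk)
        (Bx (tX (UP U fun i => KX (C i))) (aX ah)) (mkM U Y) hY2
        (mkM U fun i => pcv (Df i) (Bx (tX (KX (C i))) (aX (aX (a i)))) (p i))
        (by
          intro T hT1 hT2 W hW1 hW2
          exact dpp U (fun i => KX (KX (C i))) p Df (fun i c => isDer_iter (hDf i) (p i) c) g (2 * g)
            (fun i => Bx (tX (KX (C i))) (aX (aX (a i)))) T hT1 (by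
              intro s
              rw [hT2 s, hfB]) W hW1 hW2)
        A (fun θ hθ => hC A hA θ hθ) G' hG')
  have hfin : MvPolynomial.aeval (frv ((Qx (tX (UP U fun i => KX (C i))) (aX ah)).map
      (algebraMap (KX (UP U fun i => KX (C i))) (UP U fun i => KX (C i)))) (mkM U Y)) G =
      (0 : UP U fun i => KX (C i)) := by
    have h1 : frv ((Qx (tX (UP U fun i => KX (C i))) (aX ah)).map
        (algebraMap (KX (UP U fun i => KX (C i))) (UP U fun i => KX (C i)))) (mkM U Y) =
        fun s : Vars g => Helper62.BM.mk U fun i => frv (Qx (tX (C i)) (aX (a i))) (Y i) s := by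
      have h2 : (Qx (tX (UP U fun i => KX (C i))) (aX ah)).map
        (algebraMap (KX (UP U fun i => KX (C i))) (UP U fun i => KX (C i))) =
        mkM U fun i => Qx (tX (C i)) (aX (a i)) := hfQ'
      rw [h2]
      funext s
      exact mk_frv U _ _ hYd s
    rw [h1]
    exact hG
  exact (injective_iff_map_eq_zero _).1 hch G hfin

end Pool.Agent.Helper13.BM
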