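import Pool.Agent.Helper13.BM.Ind
import Pool.Agent.Helper62.BM.KStm

/-!
# `K_Ind` from `K_Con` and `K_Chart`
-/

set_option autoImplicit false

open Polynomial Matrix Finset Filter

namespace Pool.Agent.Helper13.BM

open Pool.Agent.Helper62.BM Pool.Agent.Helper90.BM Pool.Agent.Helper61.BM

section maps

variable {F K : Type} [Field F] [Field K] (ψ : F →+* K) {n : ℕ}

theorem Bk_map (c x : F) (a : Fin n → F) :
    (Bk c x a).map ψ = Bk (ψ c) (ψ x) fun j => ψ (a j) := by
  ext l m
  simp only [Bk, Matrix.map_apply, Matrix.of_apply]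
  split_ifs
  · exact map_zero ψ
  · rw [map_mul, map_inv₀, map_sub]

theorem Bkx_map (c x : F) (a : Fin n → F) (hE : (Em a).det ≠ 0) :
    (Bkx c x a).map ψ = Bkx (ψ c) (ψ x) fun j => ψ (a j) := by
  unfold Bkx
  rw [Matrix.map_mul, Matrix.map_mul, inv_map ψ _ hE, Em_map, Bk_map]

end maps

section up

variable (U : Ultrafilter ℕ) {F : ℕ → Type} [∀ i, Field (F i)] {n : ℕ}

theorem mk_Bk (c x : ∀ i, F i) (a : ∀ i, Fin n → F i) :
    mkM U (fun i => Bk (c i) (x i) (a i)) =
      Bk (Helper62.BM.mk U c) (Helper62.BM.mk U x) fun j => Helper62.BM.mk U fun i => a i j := by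
  ext l m
  rw [mkM_apply]
  show Helper62.BM.mk U (fun i => if l = m then 0 else c i * (x i - a i m)⁻¹) =
    if l = m then 0 else Helper62.BM.mk U c *
      (Helper62.BM.mk U x - Helper62.BM.mk U fun i => a i m)⁻¹
  split_ifs
  · exact map_zero (Helper62.BM.mk U)
  · have h1 : (fun i => c i * (x i - a i m)⁻¹) =
        c * fun i => (((x - fun i => a i m) : ∀ i, F i) i)⁻¹ := rfl
    rw [h1, map_mul, mk_inv, map_sub]

theorem mk_Bkx (c x : ∀ i, F i) (a : ∀ i, Fin n → F i) (hM : ∀ i, (Em (a i)).det ≠ 0) :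
    mkM U (fun i => Bkx (c i) (x i) (a i)) =
      Bkx (Helper62.BM.mk U c) (Helper62.BM.mk U x) fun j => Helper62.BM.mk U fun i => a i j := by
  unfold Bkx
  rw [mkM_mul, mkM_mul, mkM_inv U _ hM, mk_Em, mk_Bk]

theorem mk_ratio (s m : ℕ) : Helper62.BM.mk U (fun i => (s : F i) / (m : F i)) =
    (s : UP U F) / (m : UP U F) := by
  have h1 : (fun i => (s : F i) / (m : F i)) =
      (s : ∀ i, F i) * fun i => ((m : ∀ i, F i) i)⁻¹ := by
    funext i
    simp [div_eq_mul_inv]
  rw [h1, map_mul, mk_inv, map_natCast, map_natCast, div_eq_mul_inv]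

end up

/-- Package KF. -/
theorem kInd (hCon : K_Con) (hChart : K_Chart) (hEDet : S_EDet) : K_Ind := by
  intro n m s d hn hs hsm hnd h2s hdn U C _ p _ _ hp a ha D hD τ hτ f' hf' hf'D Y hY hYr G hG
  classical
  -- the fields
  have hcast : ∀ (i : ℕ) (m : ℕ), 1 ≤ m → m < p i → ((m : ℕ) : KX (C i)) ≠ 0 := by
    intro i m h1 h2 h3
    rw [CharP.cast_eq_zero_iff (KX (C i)) (p i)] at h3
    exact absurd (Nat.le_of_dvd h1 h3) (not_le.2 h2)
  have hC0 : CharZero (UP U fun i => KX (C i)) := Helper62.BM.charZero U fun m hm => by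
    filter_upwards [hp m] with i hi
    exact hcast i m hm hi
  choose Df hDf _ using fun i => Pool.Agent.Helper12.BM.frac (KX (C i))
  have hev : ∀ i (q : (KX (C i))[X]), q.eval₂ (κ (KX (C i))) (tX (KX (C i))) = ι (KX (C i)) q := by
    intro i q
    have h1 : q.eval₂ (κ (KX (C i))) (tX (KX (C i))) =
        ι (KX (C i)) (q.eval₂ (Polynomial.C : KX (C i) →+* (KX (C i))[X]) X) := by
      rw [Polynomial.hom_eval₂]
      rfl
    rw [h1, Polynomial.eval₂_C_X]
  obtain ⟨f, hf, hfD⟩ := Pool.Agent.Helper72.BM.emb U (fun i => KX (C i))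
    (fun i => KX (KX (C i))) (fun i => κ (KX (C i))) (fun i => tX (KX (C i))) (by
      intro d
      refine Filter.Eventually.of_forall fun i q _ h => ?_
      rw [hev] at h
      exact (map_eq_zero_iff _ (IsFractionRing.injective (KX (C i))[X] (KX (KX (C i))))).1 h)
  have hf2 : ∀ q : Polynomial (∀ i, KX (C i)), f (ι _ (q.map (Helper62.BM.mk U))) =
      Helper62.BM.mk U fun i => ι (KX (C i)) (q.map (Pi.evalRingHom (fun i => KX (C i)) i)) := by
    intro q
    rw [hf]
    congr 1
    funext i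
    exact hev i _
  have hfD2 : ∀ (Dk : Der (KX (UP U fun i => KX (C i)))), IsDer Dk →
      ∀ z, f (Dk z) = der U Df (f z) := fun Dk hDk =>
    hfD Dk Df hDk (fun i y => D_κ (hDf i) y) (fun i => D_tX (hDf i))
  have hC := hCon n m s hn hs hsm hnd h2s U (fun i => KX (C i)) p hp (fun i => aX (a i))
    (fun i => inj_aX (ha i)) Df hDf f hf2 hfD2
  set ah : Fin n → UP U fun i => KX (C i) := fun j => Helper62.BM.mk U fun i => aX (a i) j
    with hah
  have hah_inj : Function.Injective ah := by
    intro j l h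
    rw [hah] at h
    simp only at h
    rw [mk_eq] at h
    obtain ⟨i, hi⟩ := h.exists
    exact inj_aX (ha i) hi
  have hEk : (Em (aX ah)).det ≠ 0 := hEDet _ _ _ (inj_aX hah_inj)
  have hE : ∀ i, (Em (aX (a i))).det ≠ 0 := fun i => hEDet _ _ _ (inj_aX (ha i))
  have hE2 : ∀ i, (Em (aX (aX (a i)))).det ≠ 0 := fun i => hEDet _ _ _ (inj_aX (inj_aX (ha i)))
  -- the values of `f`
  have hft : f (tX (UP U fun i => KX (C i))) = Helper62.BM.mk U fun i => tX (KX (C i)) := by
    have := hf2 X
    rw [Polynomial.map_X] at this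
    rw [this]
    congr 1
    funext i
    rw [Polynomial.map_X]
  have hfa : ∀ j, f (aX ah j) = Helper62.BM.mk U fun i => aX (aX (a i)) j := by
    intro j
    have := hf2 (Polynomial.C fun i => aX (a i) j)
    rw [Polynomial.map_C] at this
    rw [this]
    congr 1
    funext i
    rw [Polynomial.map_C]
    rfl
  have hfB : (Bkx ((s : KX (UP U fun i => KX (C i))) / (m : KX (UP U fun i => KX (C i))))
      (tX (UP U fun i => KX (C i))) (aX ah)).map f =
      mkM U fun i => Bkx ((s : KX (KX (C i))) / (m : KX (KX (C i)))) (tX (KX (C i)))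
        (aX (aX (a i))) := by
    rw [Bkx_map f _ _ _ hEk, mk_Bkx U _ _ _ hE2, hft, mk_ratio, map_div₀, map_natCast,
      map_natCast]
    congr 1
    funext j
    exact hfa j
  -- the values of `f'`
  have hft' : f' (tX (UP U fun i => KX (C i))) = Helper62.BM.mk U fun i => tX (C i) := by
    have := hf' X
    rw [Polynomial.map_X] at this
    rw [this]
    congr 1
    funext i
    rw [Polynomial.map_X, Polynomial.eval₂_X]
  have hfa' : ∀ j, f' (aX ah j) = Helper62.BM.mk U fun i => aX (a i) j := by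
    intro j
    have := hf' (Polynomial.C fun i => aX (a i) j)
    rw [Polynomial.map_C] at this
    rw [this]
    congr 1
    funext i
    rw [Polynomial.map_C, Polynomial.eval₂_C]
    show τ i (ι (C i) (Polynomial.C (a i j))) = ι (C i) (Polynomial.C (a i j))
    rw [hτ, Polynomial.expand_C]
  have hfB' : (Bkx ((s : KX (UP U fun i => KX (C i))) / (m : KX (UP U fun i => KX (C i))))
      (tX (UP U fun i => KX (C i))) (aX ah)).map f' =
      mkM U fun i => Bkx ((s : KX (C i)) / (m : KX (C i))) (tX (C i)) (aX (a i)) := by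
    rw [Bkx_map f' _ _ _ hEk, mk_Bkx U _ _ _ hE, hft', mk_ratio, map_div₀, map_natCast,
      map_natCast]
    congr 1
    funext j
    exact hfa' j
  obtain ⟨Dk, hDk, -⟩ := Pool.Agent.Helper12.BM.frac (UP U fun i => KX (C i))
  -- the frame
  have hY2 : ∀ j l, der U D (mkM U Y j l) =
      (mkM U Y * (Bkx ((s : KX (UP U fun i => KX (C i))) / (m : KX (UP U fun i => KX (C i))))
      (tX (UP U fun i => KX (C i))) (aX ah)).map f') j l := by
    intro j l
    rw [hfB', ← mkM_mul, mkM_apply, mkM_apply, der_mk]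
    congr 1
    funext i
    refine hor_Bx (D i) (Em (aX (a i))) (Bk ((s : KX (C i)) / (m : KX (C i))) (tX (C i))
      (aX (a i))) (hE i) (fun r s => ?_) (Y i) (hY i) j l
    rw [Em_aX, Matrix.map_apply, D_κ (hD i)]
  have hYr2 : ∀ c : Fin d → UP U fun i => KX (C i), c ᵥ* mkM U Y = 0 → c = 0 := by
    intro c hc
    choose c' hc' using fun j => mk_surj U (c j)
    have h1 : ∀ l, ∀ᶠ i in (U : Filter ℕ), ((fun j => c' j i) ᵥ* Y i) l = 0 := by
      intro l
      have h2 : ∑ j, c j * mkM U Y j l = 0 := congrFun hc l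
      have h3 : (fun i => ((fun j => c' j i) ᵥ* Y i) l) =
          fun i => ∑ j, (fun i => c' j i * Y i j l) i := rfl
      rw [← mk_eq_zero, h3, mk_sum, ← h2]
      refine Finset.sum_congr rfl fun j _ => ?_
      rw [← hc' j, mkM_apply, ← map_mul]
      rfl
    have h2 : ∀ᶠ i in (U : Filter ℕ), (fun j => c' j i) = 0 := by
      filter_upwards [Filter.eventually_all.2 h1] with i hi
      exact hYr i _ (funext hi)
    funext j
    rw [← hc' j, Pi.zero_apply, mk_eq_zero]
    filter_upwards [h2] with i hi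
    exact congrFun hi j
  letI : Algebra (KX (UP U fun i => KX (C i))) (UP U fun i => KX (C i)) := f'.toAlgebra
  have hch := hChart (KX (UP U fun i => KX (C i))) (UP U fun i => KX (C i)) d n hdn (mkM U Y)
    hYr2 (by
      intro A hA G' hG'
      exact lemA f' f Dk (der U D) (der U Df) (hf'D Dk hDk) (hfD2 Dk hDk)
        (Bkx ((s : KX (UP U fun i => KX (C i))) / (m : KX (UP U fun i => KX (C i))))
          (tX (UP U fun i => KX (C i))) (aX ah)) (mkM U Y) hY2
        (mkM U fun i => pcv (Df i) (Bkx ((s : KX (KX (C i))) / (m : KX (KX (C i))))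
          (tX (KX (C i))) (aX (aX (a i)))) (p i))
        (by
          intro T hT1 hT2 W hW1 hW2
          exact dpp U (fun i => KX (KX (C i))) p Df (fun i c => isDer_iter (hDf i) (p i) c) d n
            (fun i => Bkx ((s : KX (KX (C i))) / (m : KX (KX (C i)))) (tX (KX (C i)))
              (aX (aX (a i)))) T hT1 (by
              intro s
              rw [hT2 s, hfB]) W hW1 hW2)
        A (fun θ hθ => hC A hA θ hθ) G' hG')
  exact (injective_iff_map_eq_zero _).1 hch G hG

end Pool.Agent.Helper13.BM
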