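import Pool.Agent.Helper90.BM.DPP
import Pool.Agent.Helper13.BM.Chart2

/-!
# The algebraic core of `S_Ind2`
-/

set_option autoImplicit false

open MvPolynomial Matrix Finset

namespace Pool.Agent.Helper13.BM

open Pool.Agent.Helper62.BM Pool.Agent.Helper90.BM

section degree2

variable {K σ : Type} [Field K] [Fintype σ]

theorem mkDer_eq (v : σ → MvPolynomial σ K) (P : MvPolynomial σ K) :
    mkDerivation K v P = ∑ s, pderiv s P * v s := by
  classical
  induction P using MvPolynomial.induction_on with
  | C a =>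
    have h : mkDerivation K v (C a) = 0 := Derivation.map_algebraMap _ a
    rw [h]
    simp
  | add P Q hP hQ =>
    rw [map_add, hP, hQ, ← Finset.sum_add_distrib]
    exact Finset.sum_congr rfl fun s _ => by rw [map_add]; ring
  | mul_X P i hP =>
    rw [Derivation.leibniz, hP, mkDerivation_X, smul_eq_mul, smul_eq_mul, Finset.mul_sum]
    simp only [pderiv_mul, add_mul, Finset.sum_add_distrib]
    rw [add_comm]
    congr 1
    · exact Finset.sum_congr rfl fun s _ => by ring
    · rw [Finset.sum_eq_single i]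
      · simp
      · intro b _ hb
        simp [pderiv_X, Ne.symm hb]
      · simp

theorem deg_TD (D : Derivation ℤ K K) (v : σ → MvPolynomial σ K) (hv : ∀ s, (v s).totalDegree ≤ 1)
    (P : MvPolynomial σ K) (d : ℕ) (hP : P.totalDegree ≤ d) : (TD D v P).totalDegree ≤ d := by
  classical
  rw [TD, Derivation.add_apply, Derivation.restrictScalars_apply, mkDer_eq]
  refine (totalDegree_add _ _).trans (max_le ?_ ?_)
  · refine (Finset.sup_le fun m hm => ?_)
    rw [mem_support_iff, coeff_cD] at hm
    have : P.coeff m ≠ 0 := fun h => hm (by rw [h, map_zero])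
    exact (le_totalDegree (mem_support_iff.2 this)).trans hP
  · refine totalDegree_finsetSum_le fun s _ => ?_
    rcases d with _ | e
    · have hC := (totalDegree_eq_zero_iff_eq_C).1 (Nat.le_zero.1 hP)
      rw [hC, pderiv_C, zero_mul]
      simp
    · refine (totalDegree_mul _ _).trans ?_
      have := totalDegree_pderiv_le P e hP s
      have := hv s
      omega

end degree2

section core

variable {k L M : Type} [Field k] [Field L] [Field M]

theorem lemA (f' : k →+* L) (f : k →+* M)
    (Dk : Der k) (DL : Der L) (DM : Der M) (hDL : ∀ z, f' (Dk z) = DL (f' z))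
    (hDM : ∀ z, f (Dk z) = DM (f z))
    {m n : ℕ} (B : Matrix (Fin n) (Fin n) k) (Y : Matrix (Fin m) (Fin n) L)
    (hY : ∀ i j, DL (Y i j) = (Y * B.map f') i j) (ψ : Matrix (Fin n) (Fin n) M)
    (hDPP : ∀ T : Derivation ℤ (MvPolynomial (Fin m × Fin n) M) (MvPolynomial (Fin m × Fin n) M),
      (∀ c, T (C c) = C (DM c)) →
      (∀ s : Fin m × Fin n, T (X s) = ∑ l, X (s.1, l) * C ((B.map f) l s.2)) →
      ∀ W : Submodule M (MvPolynomial (Fin m × Fin n) M), W.FG → (∀ G ∈ W, T G ∈ W) →
        ∀ G ∈ W, (∑ s : Fin m × Fin n, (∑ l, X (s.1, l) * C (ψ l s.2)) * pderiv s G) ∈ W)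
    (A : Matrix (Fin n) (Fin n) k)
    (hCon : ∀ θ : Matrix (Fin n) (Fin n) k, (θ.map f * ψ).trace = 0 → (θ * A).trace = 0)
    (G : MvPolynomial (Fin m × Fin n) k)
    (hG : eval₂ f' (fun s : Fin m × Fin n => Y s.1 s.2) G = 0) :
    ∑ s : Fin m × Fin n, (Y * A.map f') s.1 s.2 *
      eval₂ f' (fun s : Fin m × Fin n => Y s.1 s.2) (pderiv s G) = 0 := by
  classical
  set ev : MvPolynomial (Fin m × Fin n) k →+* L :=
    eval₂Hom f' (fun s : Fin m × Fin n => Y s.1 s.2) with hev
  have evdef : ∀ P, eval₂ f' (fun s : Fin m × Fin n => Y s.1 s.2) P = ev P := fun _ => rfl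
  set vk : Fin m × Fin n → MvPolynomial (Fin m × Fin n) k :=
    fun s => ∑ l, X (s.1, l) * C (B l s.2) with hvk
  set vM : Fin m × Fin n → MvPolynomial (Fin m × Fin n) M :=
    fun s => ∑ l, X (s.1, l) * C ((B.map f) l s.2) with hvM
  have hvk1 : ∀ s, (vk s).totalDegree ≤ 1 := by
    intro s
    refine totalDegree_finsetSum_le fun l _ => ?_
    refine (totalDegree_mul _ _).trans ?_
    rw [totalDegree_C, totalDegree_X]
  have hTk : ∀ P, ev (TD Dk vk P) = DL (ev P) := by
    intro P
    induction P using MvPolynomial.induction_on with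
    | C a =>
      rw [TD_C, hev, coe_eval₂Hom, eval₂_C, eval₂_C, hDL]
    | add P Q hP hQ => rw [map_add, map_add, map_add, hP, hQ, map_add]
    | mul_X P s hP =>
      have h1 : ev (vk s) = DL (ev (X s)) := by
        have h2 : ev (X s) = Y s.1 s.2 := by rw [hev, coe_eval₂Hom, eval₂_X]
        rw [h2, hY, Matrix.mul_apply, hvk]
        simp only [map_sum, map_mul]
        refine Finset.sum_congr rfl fun l _ => ?_
        rw [hev, coe_eval₂Hom, eval₂_X, eval₂_C, Matrix.map_apply]
      rw [Derivation.leibniz, smul_eq_mul, smul_eq_mul, map_add, map_mul, map_mul, TD_X, hP,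
        map_mul, Derivation.leibniz, smul_eq_mul, smul_eq_mul, h1]
  have hnat : ∀ P, map f (TD Dk vk P) = TD DM vM (map f P) := by
    intro P
    refine nat f _ _ (fun c => ?_) (fun s => ?_) P
    · rw [TD_C, map_C, TD_C, hDM]
    · rw [TD_X, TD_X, hvk, hvM]
      simp
  set d := G.totalDegree with hd
  set x : MvPolynomial (Fin m × Fin n) k :=
    ∑ s : Fin m × Fin n, (∑ l, X (s.1, l) * C (A l s.2)) * pderiv s G with hx
  have hevx : ev x = ∑ s : Fin m × Fin n, (Y * A.map f') s.1 s.2 * ev (pderiv s G) := by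
    rw [hx, map_sum]
    refine Finset.sum_congr rfl fun s _ => ?_
    rw [map_mul, map_sum, Matrix.mul_apply]
    congr 1
    refine Finset.sum_congr rfl fun l _ => ?_
    rw [map_mul, hev, coe_eval₂Hom, eval₂_X, eval₂_C, Matrix.map_apply]
  simp only [evdef] at hG ⊢
  rw [← hevx]
  by_contra hne
  -- the subspace of relations
  let V : Submodule k (MvPolynomial (Fin m × Fin n) k) :=
    { carrier := {P | P.totalDegree ≤ d ∧ ev P = 0}
      add_mem' := by
        rintro a b ⟨ha, ha'⟩ ⟨hb, hb'⟩
        exact ⟨(totalDegree_add _ _).trans (max_le ha hb), by rw [map_add, ha', hb', add_zero]⟩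
      zero_mem' := ⟨by simp, map_zero _⟩
      smul_mem' := by
        rintro c a ⟨ha, ha'⟩
        refine ⟨(totalDegree_smul_le _ _).trans ha, ?_⟩
        rw [smul_eq_C_mul, map_mul, ha', mul_zero] }
  have hxV : x ∉ V := fun h => hne h.2
  obtain ⟨μ, hμx, hμV⟩ := Submodule.exists_le_ker_of_notMem hxV
  have hμV' : ∀ P ∈ V, μ P = 0 := fun P hP => hμV hP
  -- the extension of the linear form
  let μM : MvPolynomial (Fin m × Fin n) M →ₗ[M] M :=
    (basisMonomials (Fin m × Fin n) M).constr M fun m => f (μ (monomial m 1))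
  have hμM1 : ∀ q, μM (monomial q 1) = f (μ (monomial q 1)) := by
    intro q
    have := (basisMonomials (Fin m × Fin n) M).constr_basis M
      (fun m => f (μ (monomial m 1))) q
    rwa [coe_basisMonomials] at this
  have hμM : ∀ P, μM (map f P) = f (μ P) := by
    intro P
    induction P using MvPolynomial.induction_on' with
    | add P Q hP hQ => rw [map_add, map_add, hP, hQ, map_add, map_add]
    | monomial q c =>
      rw [map_monomial]
      have h1 : (monomial q (f c) : MvPolynomial (Fin m × Fin n) M) = f c • monomial q 1 := by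
        rw [smul_monomial, smul_eq_mul, mul_one]
      have h2 : (monomial q c : MvPolynomial (Fin m × Fin n) k) = c • monomial q 1 := by
        rw [smul_monomial, smul_eq_mul, mul_one]
      rw [h1, h2, map_smul, map_smul, hμM1, smul_eq_mul, smul_eq_mul, map_mul]
  let W : Submodule M (MvPolynomial (Fin m × Fin n) M) := Submodule.span M (map f '' V)
  have hWFG : W.FG := by
    refine Submodule.FG.of_le_of_isNoetherian (T := restrictTotalDegree (Fin m × Fin n) M d) ?_
    refine Submodule.span_le.2 ?_
    rintro _ ⟨P, hP, rfl⟩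
    rw [SetLike.mem_coe, mem_restrictTotalDegree]
    refine (Finset.sup_mono (support_map_subset f P)).trans ?_
    exact hP.1
  have hWT : ∀ P ∈ W, TD DM vM P ∈ W := by
    intro P hP
    induction hP using Submodule.span_induction with
    | mem P hP =>
      obtain ⟨Q, hQ, rfl⟩ := hP
      rw [← hnat]
      refine Submodule.subset_span ⟨_, ?_, rfl⟩
      exact ⟨deg_TD Dk vk hvk1 Q d hQ.1, by rw [hTk, hQ.2, map_zero]⟩
    | zero => rw [map_zero]; exact W.zero_mem
    | add P Q _ _ hP hQ => rw [map_add]; exact W.add_mem hP hQ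
    | smul c P hP' hP =>
      rw [smul_eq_C_mul, Derivation.leibniz, TD_C, smul_eq_mul, smul_eq_mul, mul_comm P,
        ← smul_eq_C_mul, ← smul_eq_C_mul]
      exact W.add_mem (W.smul_mem _ hP) (W.smul_mem _ hP')
  have hμW : ∀ P ∈ W, μM P = 0 := by
    intro P hP
    induction hP using Submodule.span_induction with
    | mem P hP =>
      obtain ⟨Q, hQ, rfl⟩ := hP
      rw [hμM, hμV' Q hQ, map_zero]
    | zero => rw [map_zero]
    | add P Q _ _ hP hQ => rw [map_add, hP, hQ, add_zero]
    | smul c P _ hP => rw [map_smul, hP, smul_zero]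
  have hGW : map f G ∈ W := Submodule.subset_span ⟨G, ⟨le_rfl, hG⟩, rfl⟩
  have hkey := hDPP (TD DM vM) (fun c => TD_C _ _ c) (fun s => TD_X _ _ s) W hWFG hWT _ hGW
  have hkey2 := hμW _ hkey
  set θ : Matrix (Fin n) (Fin n) k :=
    Matrix.of fun j l => μ (∑ i, X (i, l) * pderiv (i, j) G) with hθ
  have e1 : ∀ i j, μM ((∑ l, X (i, l) * C (ψ l j)) * pderiv (i, j) (map f G)) =
      ∑ l, f (μ (X (i, l) * pderiv (i, j) G)) * ψ l j := by
    intro i j
    rw [Finset.sum_mul, map_sum]
    refine Finset.sum_congr rfl fun l _ => ?_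
    have h1 : X (i, l) * C (ψ l j) * pderiv (i, j) (map f G) =
        ψ l j • MvPolynomial.map f (X (i, l) * pderiv (i, j) G) := by
      rw [pderiv_map, map_mul, map_X, smul_eq_C_mul]
      ring
    rw [h1, map_smul, hμM, smul_eq_mul, mul_comm]
  have htr : (θ.map f * ψ).trace = 0 := by
    rw [map_sum, Fintype.sum_prod_type] at hkey2
    simp only [e1] at hkey2
    rw [← hkey2, Finset.sum_comm]
    simp only [Matrix.trace, Matrix.diag, Matrix.mul_apply, Matrix.map_apply, hθ,
      Matrix.of_apply, map_sum, Finset.sum_mul]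
    exact Finset.sum_congr rfl fun j _ => Finset.sum_comm
  have htr2 := hCon θ htr
  apply hμx
  have e2 : ∀ i j, μ ((∑ l, X (i, l) * C (A l j)) * pderiv (i, j) G) =
      ∑ l, μ (X (i, l) * pderiv (i, j) G) * A l j := by
    intro i j
    rw [Finset.sum_mul, map_sum]
    refine Finset.sum_congr rfl fun l _ => ?_
    have h1 : X (i, l) * C (A l j) * pderiv (i, j) G =
        A l j • (X (i, l) * pderiv (i, j) G) := by
      rw [smul_eq_C_mul]
      ring
    rw [h1, map_smul, smul_eq_mul, mul_comm]
  rw [← htr2, hx, map_sum, Fintype.sum_prod_type]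
  simp only [e2]
  rw [Finset.sum_comm]
  simp only [Matrix.trace, Matrix.diag, Matrix.mul_apply, hθ, Matrix.of_apply, map_sum,
    Finset.sum_mul]
  exact Finset.sum_congr rfl fun j _ => Finset.sum_comm

end core

end Pool.Agent.Helper13.BM
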